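import Pool.Agent.Lib.P670edc.Main

set_option autoImplicit false

open Real MeasureTheory Metric
open Pool.Agent.Lib.P670edc

namespace Pool.Agent.Results.MP_670edc_co.FullRange

section
variable {n : ℕ} {μ : ℝ} {x : Fin n → Plane} {ρ : Fin n → ℝ}

lemma sum_pairs (f : Fin n → Fin n → ℝ) :
    ∑ i, ∑ j ∈ Finset.univ.erase i, f i j =
      ∑ p ∈ (Finset.univ.filter (fun p : Fin n × Fin n => p.1 < p.2)), (f p.1 p.2 + f p.2 p.1) := by
  classical
  have h1 : ∑ i, ∑ j ∈ Finset.univ.erase i, f i j =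
      ∑ p ∈ (Finset.univ.filter (fun p : Fin n × Fin n => p.1 ≠ p.2)), f p.1 p.2 := by
    rw [Finset.sum_filter, Fintype.sum_prod_type]
    apply Finset.sum_congr rfl
    intro i _
    rw [← Finset.sum_filter]
    apply Finset.sum_congr _ (fun _ _ => rfl)
    ext j
    simp [eq_comm]
  have h2 : (Finset.univ.filter (fun p : Fin n × Fin n => p.1 ≠ p.2)) =
      (Finset.univ.filter (fun p : Fin n × Fin n => p.1 < p.2)) ∪
      (Finset.univ.filter (fun p : Fin n × Fin n => p.2 < p.1)) := by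
    ext p
    simp only [Finset.mem_filter, Finset.mem_univ, true_and, Finset.mem_union]
    exact ne_iff_lt_or_gt
  have h3 : Disjoint (Finset.univ.filter (fun p : Fin n × Fin n => p.1 < p.2))
      (Finset.univ.filter (fun p : Fin n × Fin n => p.2 < p.1)) := by
    rw [Finset.disjoint_filter]
    intro p _ h h'
    exact absurd h (lt_asymm h')
  rw [h1, h2, Finset.sum_union h3, Finset.sum_add_distrib]
  congr 1
  refine Finset.sum_bij' (fun p _ => (p.2, p.1)) (fun p _ => (p.2, p.1)) ?_ ?_ ?_ ?_ ?_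
  · intro p hp
    simpa using hp
  · intro p hp
    simpa using hp
  · intro p _; rfl
  · intro p _; rfl
  · intro p _; rfl

/-- The local inequality for an arbitrary pair of members. -/
lemma pair_ineq (hμ1 : sqrt 3 - 1 < μ) (hμ2 : μ < 1) (h : IsArrangement μ x ρ) {i j : Fin n}
    (hij : i ≠ j) :
    ρ i ^ 2 * ang (ρ i) (ρ j) ‖x j - x i‖ + ρ j ^ 2 * ang (ρ j) (ρ i) ‖x i - x j‖ ≤
        cμ μ * kite (ρ i) (ρ j) ‖x j - x i‖ ∧
      (ρ i ^ 2 * ang (ρ i) (ρ j) ‖x j - x i‖ + ρ j ^ 2 * ang (ρ j) (ρ i) ‖x i - x j‖ =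
        cμ μ * kite (ρ i) (ρ j) ‖x j - x i‖ ↔
        (‖x j - x i‖ < ρ i + ρ j →
          ‖x j - x i‖ = ρ i + μ * ρ j ∧ ‖x j - x i‖ = ρ j + μ * ρ i)) := by
  obtain ⟨h1, h2⟩ := sep h hij
  obtain ⟨s1, s2⟩ := sep_lt hμ1 h hij
  have hi := h.1 i
  have hj := h.1 j
  have hμ := mu_pos hμ1
  rw [norm_sub_rev (x i) (x j)]
  set d := ‖x j - x i‖ with hd
  rcases lt_or_ge d (ρ i + ρ j) with hlt | hge
  · rcases le_total (ρ j) (ρ i) with hle | hle
    · have := local_ineq hμ1 hμ2 hj hle h1 hlt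
      refine ⟨this.1, this.2.trans ⟨?_, ?_⟩⟩
      · rintro ⟨e1, e2⟩ _
        refine ⟨e2, ?_⟩
        rw [e2, e1]
      · intro e
        obtain ⟨e1, e2⟩ := e hlt
        refine ⟨?_, e1⟩
        have : (1 - μ) * (ρ i - ρ j) = 0 := by linear_combination e2 - e1
        rcases mul_eq_zero.mp this with h3 | h3
        · linarith
        · linarith
    · have := local_ineq hμ1 hμ2 hi hle h2 (by linarith)
      rw [kite_comm (ρ i) (ρ j), add_comm]
      refine ⟨this.1, this.2.trans ⟨?_, ?_⟩⟩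
      · rintro ⟨e1, e2⟩ _
        refine ⟨?_, e2⟩
        rw [e2, e1]
      · intro e
        obtain ⟨e1, e2⟩ := e hlt
        refine ⟨?_, e2⟩
        have : (1 - μ) * (ρ j - ρ i) = 0 := by linear_combination e1 - e2
        rcases mul_eq_zero.mp this with h3 | h3
        · linarith
        · linarith
  · have hd0 : 0 < d := by linarith
    have a1 : ang (ρ i) (ρ j) d = 0 := by
      unfold ang
      apply arccos_of_one_le
      rw [one_le_div (by positivity)]
      nlinarith [mul_nonneg (by linarith : 0 ≤ d - ρ i - ρ j) (by linarith : 0 ≤ d - ρ i + ρ j)]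
    have a2 : ang (ρ j) (ρ i) d = 0 := by
      unfold ang
      apply arccos_of_one_le
      rw [one_le_div (by positivity)]
      nlinarith [mul_nonneg (by linarith : 0 ≤ d - ρ j - ρ i) (by linarith : 0 ≤ d - ρ j + ρ i)]
    have a3 : kite (ρ i) (ρ j) d = 0 := by
      unfold kite
      apply sqrt_eq_zero_of_nonpos
      have h4 := heron (ρ i) (ρ j) d
      have h5 : (ρ i + ρ j + d) * (ρ i + ρ j - d) * (d + ρ i - ρ j) * (d + ρ j - ρ i) ≤ 0 := by
        apply mul_nonpos_of_nonpos_of_nonneg _ (by linarith)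
        apply mul_nonpos_of_nonpos_of_nonneg _ (by linarith)
        apply mul_nonpos_of_nonneg_of_nonpos _ (by linarith)
        linarith
      linarith
    rw [a1, a2, a3]
    simp only [mul_zero, add_zero, le_refl, true_and, true_iff]
    intro h4
    linarith

lemma inter_nonempty_iff (h : IsArrangement μ x ρ) {i j : Fin n} :
    (disk x ρ i ∩ disk x ρ j).Nonempty ↔ ‖x j - x i‖ < ρ i + ρ j := by
  unfold disk
  rw [← Set.not_disjoint_iff_nonempty_inter, disjoint_ball_ball_iff (h.1 i) (h.1 j), not_le,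
    dist_comm, dist_eq_norm]

lemma isFree_of (hμ1 : sqrt 3 - 1 < μ) (hμ2 : μ < 1) (h : IsArrangement μ x ρ) {i j : Fin n}
    (hij : i ≠ j) (hne : (disk x ρ i ∩ disk x ρ j).Nonempty) : IsFree x ρ i j := by
  intro k hki hkj hsub
  obtain ⟨q, hq⟩ := hne
  have hk := hsub hq
  obtain ⟨hi, hj⟩ := hq
  unfold disk at hi hj hk
  rw [mem_ball, dist_eq_norm] at hi hj hk
  exact no_triple hμ1 hμ2 h hij (Ne.symm hkj) (Ne.symm hki) hi.le hj.le hk.le

/-- one half of thickness -/
lemma touch_iff (hμ0 : 0 < μ) (hμ2 : μ < 1) (h : IsArrangement μ x ρ) {i j : Fin n}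
    (hij : i ≠ j) :
    (closure (disk x ρ i ∩ disk x ρ j) ∩ closure (core μ x ρ i)).Nonempty ↔
      ‖x j - x i‖ = ρ j + μ * ρ i := by
  obtain ⟨h1, h2⟩ := sep h hij
  have hi := h.1 i
  have hj := h.1 j
  have hμi : 0 < μ * ρ i := mul_pos hμ0 hi
  constructor
  · rintro ⟨q, hq1, hq2⟩
    have hq3 : q ∈ closure (disk x ρ j) := closure_mono Set.inter_subset_right hq1
    unfold disk at hq3
    unfold core at hq2
    rw [closure_ball _ hj.ne', mem_closedBall, dist_eq_norm] at hq3
    rw [closure_ball _ hμi.ne', mem_closedBall, dist_eq_norm] at hq2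
    have e : x j - x i = (q - x i) - (q - x j) := by abel
    have : ‖x j - x i‖ ≤ ‖q - x i‖ + ‖q - x j‖ := by
      rw [e]; exact norm_sub_le _ _
    linarith
  · intro hd
    have hd0 : 0 < ‖x j - x i‖ := by rw [hd]; positivity
    set q : Plane := x i + (μ * ρ i / ‖x j - x i‖) • (x j - x i) with hq
    have e1 : ‖q - x i‖ = μ * ρ i := by
      rw [hq, add_sub_cancel_left, norm_smul, Real.norm_eq_abs, abs_of_pos (by positivity),
        div_mul_cancel₀ _ hd0.ne']
    have e2 : ‖q - x j‖ = ρ j := by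
      have : q - x j = -((ρ j / ‖x j - x i‖) • (x j - x i)) := by
        have h3 : ρ j / ‖x j - x i‖ = 1 - μ * ρ i / ‖x j - x i‖ := by
          field_simp
          linarith
        rw [hq, h3]
        module
      rw [this, norm_neg, norm_smul, Real.norm_eq_abs, abs_of_pos (by positivity),
        div_mul_cancel₀ _ hd0.ne']
    refine ⟨q, ?_, ?_⟩
    · apply (isOpen_ball (x := x i) (ε := ρ i)).inter_closure
      constructor
      · rw [mem_ball, dist_eq_norm, e1]
        calc μ * ρ i < 1 * ρ i := mul_lt_mul_of_pos_right hμ2 hi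
          _ = ρ i := one_mul _
      · unfold disk
        rw [closure_ball _ hj.ne', mem_closedBall, dist_eq_norm, e2]
    · unfold core
      rw [closure_ball _ hμi.ne', mem_closedBall, dist_eq_norm, e1]

lemma thick_iff (hμ0 : 0 < μ) (hμ2 : μ < 1) (h : IsArrangement μ x ρ) {i j : Fin n}
    (hij : i ≠ j) :
    IsThick μ x ρ i j ↔
      ‖x j - x i‖ = ρ i + μ * ρ j ∧ ‖x j - x i‖ = ρ j + μ * ρ i := by
  unfold IsThick
  rw [touch_iff hμ0 hμ2 h hij, Set.inter_comm (disk x ρ i) (disk x ρ j),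
    touch_iff hμ0 hμ2 h (Ne.symm hij), norm_sub_rev (x i) (x j)]
  exact and_comm

end

/-- For every `μ` with `√3 - 1 < μ < 1` and every finite generalized Minkowski arrangement of order
`μ` of circular disks in the plane, the total area of the disks is at most
`c(μ)` times the area of the inner shell plus the area of the outer shell, and equality holds
exactly when every free digon is thick. -/
theorem result (μ : ℝ) (hμ1 : sqrt 3 - 1 < μ) (hμ2 : μ < 1) (n : ℕ) (x : Fin n → Plane)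
    (ρ : Fin n → ℝ) (h : IsArrangement μ x ρ) :
    (∑ i, π * ρ i ^ 2 ≤
        cμ μ * (volume (innerShell x ρ)).toReal + (volume (outerShell x ρ)).toReal) ∧
      (∑ i, π * ρ i ^ 2 =
          cμ μ * (volume (innerShell x ρ)).toReal + (volume (outerShell x ρ)).toReal ↔
        ∀ i j, i ≠ j → (disk x ρ i ∩ disk x ρ j).Nonempty → IsFree x ρ i j →
          IsThick μ x ρ i j) := by
  have hμ0 := mu_pos hμ1
  set P := (Finset.univ.filter (fun p : Fin n × Fin n => p.1 < p.2)) with hP
  have hfin : ∀ i, volume (outSet x ρ i) ≠ ⊤ := by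
    intro i
    apply ne_top_of_le_ne_top (measure_closedBall_lt_top (μ := volume) (x := x i) (r := ρ i)).ne
    apply measure_mono
    intro q hq
    rw [mem_closedBall, dist_eq_norm]
    exact hq.2.1
  -- areas
  have hO : (volume (outerShell x ρ)).toReal = ∑ i, (volume (outSet x ρ i)).toReal := by
    rw [volume_outerShell hμ1 h, ENNReal.toReal_sum (fun i _ => hfin i)]
  have hI : (volume (innerShell x ρ)).toReal =
      ∑ p ∈ P, kite (ρ p.1) (ρ p.2) ‖x p.2 - x p.1‖ := by
    rw [volume_innerShell hμ1 hμ2 h, ENNReal.toReal_sum (fun p _ => ENNReal.ofReal_ne_top)]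
    apply Finset.sum_congr rfl
    intro p _
    exact ENNReal.toReal_ofReal (sqrt_nonneg _)
  have hT : ∑ i, π * ρ i ^ 2 = ∑ i, (volume (outSet x ρ i)).toReal +
      ∑ p ∈ P, (ρ p.1 ^ 2 * ang (ρ p.1) (ρ p.2) ‖x p.2 - x p.1‖ +
        ρ p.2 ^ 2 * ang (ρ p.2) (ρ p.1) ‖x p.1 - x p.2‖) := by
    rw [hP, ← sum_pairs (fun i j => ρ i ^ 2 * ang (ρ i) (ρ j) ‖x j - x i‖),
      ← Finset.sum_add_distrib]
    apply Finset.sum_congr rfl
    intro i _
    have hdec := closedBall_decomp hμ1 hμ2 h i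
    have hsec : ∀ j ∈ Finset.univ.erase i, volume (secSet (x i) (x j) (ρ i) (ρ j)) =
        ENNReal.ofReal (ρ i ^ 2 * ang (ρ i) (ρ j) ‖x j - x i‖) := by
      intro j hj
      rw [Finset.mem_erase] at hj
      obtain ⟨s1, s2⟩ := sep_lt hμ1 h (Ne.symm hj.1)
      exact volume_secSet (h.1 i) (h.1 j) (ne_center hμ1 h (Ne.symm hj.1))
        (by linarith [h.1 j]) (by linarith [h.1 i])
    rw [Finset.sum_congr rfl hsec, EuclideanSpace.volume_closedBall_fin_two] at hdec
    have h1 := congrArg ENNReal.toReal hdec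
    rw [ENNReal.toReal_add (hfin i) (ENNReal.sum_ne_top.mpr fun _ _ => ENNReal.ofReal_ne_top),
      ENNReal.toReal_sum (fun _ _ => ENNReal.ofReal_ne_top)] at h1
    have h2 : ∀ j ∈ Finset.univ.erase i,
        (ENNReal.ofReal (ρ i ^ 2 * ang (ρ i) (ρ j) ‖x j - x i‖)).toReal =
          ρ i ^ 2 * ang (ρ i) (ρ j) ‖x j - x i‖ := by
      intro j _
      exact ENNReal.toReal_ofReal (mul_nonneg (sq_nonneg _) (arccos_nonneg _))
    rw [Finset.sum_congr rfl h2] at h1
    rw [← h1]
    rw [ENNReal.toReal_mul, ENNReal.toReal_pow, ENNReal.toReal_ofReal (h.1 i).le,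
      ENNReal.toReal_ofReal pi_pos.le, mul_comm]
  have hpair : ∀ p ∈ P, ρ p.1 ^ 2 * ang (ρ p.1) (ρ p.2) ‖x p.2 - x p.1‖ +
        ρ p.2 ^ 2 * ang (ρ p.2) (ρ p.1) ‖x p.1 - x p.2‖ ≤
        cμ μ * kite (ρ p.1) (ρ p.2) ‖x p.2 - x p.1‖ := by
    intro p hp
    rw [hP, Finset.mem_filter] at hp
    exact (pair_ineq hμ1 hμ2 h (ne_of_lt hp.2)).1
  rw [hT, hO, hI, Finset.mul_sum]
  constructor
  · rw [add_comm]
    gcongr
    exact hpair _ (by assumption)
  · rw [add_comm, add_left_inj, Finset.sum_eq_sum_iff_of_le hpair]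
    constructor
    · intro hall i j hij hne _
      rw [thick_iff hμ0 hμ2 h hij]
      have hlt := (inter_nonempty_iff h).mp hne
      rcases lt_or_gt_of_ne hij with hij' | hij'
      · have := hall (i, j) (by rw [hP, Finset.mem_filter]; exact ⟨Finset.mem_univ _, hij'⟩)
        exact ((pair_ineq hμ1 hμ2 h hij).2.mp this) hlt
      · have := hall (j, i) (by rw [hP, Finset.mem_filter]; exact ⟨Finset.mem_univ _, hij'⟩)
        have h3 := ((pair_ineq hμ1 hμ2 h (Ne.symm hij)).2.mp this)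
          (by rw [norm_sub_rev]; linarith)
        rw [norm_sub_rev]
        exact ⟨h3.2, h3.1⟩
    · intro hall p hp
      rw [hP, Finset.mem_filter] at hp
      have hij : p.1 ≠ p.2 := ne_of_lt hp.2
      apply (pair_ineq hμ1 hμ2 h hij).2.mpr
      intro hlt
      have hne : (disk x ρ p.1 ∩ disk x ρ p.2).Nonempty := (inter_nonempty_iff h).mpr hlt
      exact (thick_iff hμ0 hμ2 h hij).mp (hall p.1 p.2 hij hne (isFree_of hμ1 hμ2 h hij hne))

end Pool.Agent.Results.MP_670edc_co.FullRange
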